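import Pool.Agent.H717.PM.Final

/-!
# Recognition of `k`-OR-PCGs, `k`-AND-PCGs and `k`-interval-PCGs is NP-complete

Hardness holds already for `k = 1`, by a reduction from betweenness: a non-edge is forced to be
shorter than all edges by four new vertices joined to both ends which span two disjoint edges, and
a non-edge `pq` is forced to be longer than all edges by two new vertices `x`, `y` with the edges
`xp`, `yq` such that `xq`, `xy`, `yp` are forced to be short.

Membership in NP: at most `n²` trees (intervals) are needed; the certificates are distance matrices
of natural numbers with the four-point condition (Buneman's theorem gives the trees), and the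
numbers can be chosen with polynomially many bits, because an integral point of polynomial size
with prescribed signs of linear forms with small coefficients exists as soon as a real point with
these signs exists.
-/

set_option autoImplicit false

namespace Pool.Agent.Results.MP_dff376_lc.AllThreeNPComplete

open Pool.Agent.NPC Pool.Agent.H717.PM

/-- **Recognition of `k`-OR-PCGs, of `k`-AND-PCGs and of `k`-interval-PCGs** (the input is a graph
and `k ≥ 1`) **is NP-complete**: all three problems are in `NP` and `NP`-hard under polynomial-time
many-one reductions. -/
theorem result :
    (InNPP OrRec ∧ NPHardP OrRec) ∧ (InNPP AndRec ∧ NPHardP AndRec) ∧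
      (InNPP IntRec ∧ NPHardP IntRec) :=
  ⟨⟨Final.np_or, Final.hardI_or.toNPHardP⟩, ⟨Final.np_and, Final.hardI_and.toNPHardP⟩,
    ⟨Final.np_int, Final.hardI_int.toNPHardP⟩⟩

end Pool.Agent.Results.MP_dff376_lc.AllThreeNPComplete
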